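import Mathlib

/-!
# MP_75f39d_co, theorem T5 (note `/team-store/H62_75f39d.md`): common definitions and basic facts
-/

set_option autoImplicit false

namespace Pool.Agent.H62.UC

open Finset

variable {α : Type*} [DecidableEq α]

/-- Unions of two members that lie in a common member are members. -/
def JoinP (N : Finset (Finset α)) : Prop :=
  ∀ x ∈ N, ∀ y ∈ N, ∀ z ∈ N, y ⊆ x → z ⊆ x → y ∪ z ∈ N

/-- The mass of the subsets of `V` in which `w` is a maximal member of `N`. -/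
noncomputable def aw (V : Finset α) (μ : Finset α → ℝ) (N : Finset (Finset α))
    (w : Finset α) : ℝ :=
  ∑ Z ∈ V.powerset with (w ⊆ Z ∧ ∀ y ∈ N, w ⊆ y → y ⊆ Z → y = w), μ Z

/-- The mass of the subsets of `V` that contain a member of `F`. -/
noncomputable def up (V : Finset α) (μ : Finset α → ℝ) (F : Finset (Finset α)) : ℝ :=
  ∑ Z ∈ V.powerset with (∃ w ∈ F, w ⊆ Z), μ Z

/-- `F` is an up-closed subfamily of `N`. -/
def Filt (N F : Finset (Finset α)) : Prop :=
  F ⊆ N ∧ ∀ w ∈ F, ∀ y ∈ N, w ⊆ y → y ∈ F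

/-- `c` is feasible. -/
def Feas (V : Finset α) (μ : Finset α → ℝ) (N : Finset (Finset α)) (c : Finset α → ℝ) : Prop :=
  (∀ w ∈ N, 0 ≤ c w) ∧ ∀ F, Filt N F → ∑ w ∈ F, c w ≤ up V μ F

/-- `μ` is nonnegative and decreasing on the subsets of `V`. -/
def Decr (V : Finset α) (μ : Finset α → ℝ) : Prop :=
  (∀ Z ⊆ V, 0 ≤ μ Z) ∧ ∀ Z ⊆ V, ∀ Z' ⊆ Z, μ Z ≤ μ Z'

/-- The members without `k`. -/
def N0 (k : α) (N : Finset (Finset α)) : Finset (Finset α) := N.filter (k ∉ ·)

/-- The members with `k`, with `k` removed. -/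
def N1 (k : α) (N : Finset (Finset α)) : Finset (Finset α) :=
  (N.filter (k ∈ ·)).image (fun y => y.erase k)

/-- `w` is the largest member of `M` inside `y`. -/
def Lg (M : Finset (Finset α)) (w y : Finset α) : Prop :=
  w ∈ M ∧ w ⊆ y ∧ ∀ z ∈ M, z ⊆ y → z ⊆ w

instance (M : Finset (Finset α)) (w y : Finset α) : Decidable (Lg M w y) := by
  unfold Lg; infer_instance

/-- The number of `y ∈ N1 k N` whose largest subset in `N0 k N` is `w`. -/
def tt (k : α) (N : Finset (Finset α)) (w : Finset α) : ℕ :=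
  ((N1 k N).filter (fun y => Lg (N0 k N) w y)).card

theorem mem_N0 {k : α} {N : Finset (Finset α)} {w : Finset α} :
    w ∈ N0 k N ↔ w ∈ N ∧ k ∉ w := by
  simp [N0]

theorem mem_N1 {k : α} {N : Finset (Finset α)} {y : Finset α} :
    y ∈ N1 k N ↔ k ∉ y ∧ insert k y ∈ N := by
  simp only [N1, mem_image, mem_filter]
  constructor
  · rintro ⟨x, ⟨hx, hk⟩, rfl⟩
    exact ⟨by simp, by rwa [insert_erase hk]⟩
  · rintro ⟨hk, hy⟩
    exact ⟨insert k y, ⟨hy, by simp⟩, by simp [hk]⟩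

theorem N0_sub {k : α} {N : Finset (Finset α)} {V : Finset α} (hN : N ⊆ V.powerset) :
    N0 k N ⊆ (V.erase k).powerset := by
  intro w hw
  rw [mem_N0] at hw
  have h1 := mem_powerset.mp (hN hw.1)
  exact mem_powerset.mpr (fun a ha => mem_erase.mpr ⟨fun h => hw.2 (h ▸ ha), h1 ha⟩)

theorem N1_sub {k : α} {N : Finset (Finset α)} {V : Finset α} (hN : N ⊆ V.powerset) :
    N1 k N ⊆ (V.erase k).powerset := by
  intro y hy
  rw [mem_N1] at hy
  have h1 := mem_powerset.mp (hN hy.2)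
  exact mem_powerset.mpr (fun a ha => mem_erase.mpr
    ⟨fun h => hy.1 (h ▸ ha), h1 (mem_insert_of_mem ha)⟩)

theorem inj_erase {k : α} {N : Finset (Finset α)} :
    Set.InjOn (fun y : Finset α => y.erase k) (N.filter (k ∈ ·) : Finset (Finset α)) := by
  intro a ha b hb hab
  simp only [coe_filter, Set.mem_ofPred_eq] at ha hb
  have h : a.erase k = b.erase k := hab
  rw [← insert_erase ha.2, ← insert_erase hb.2, h]

theorem card_N0_add (k : α) (N : Finset (Finset α)) :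
    (N0 k N).card + (N1 k N).card = N.card := by
  rw [N0, N1, card_image_of_injOn inj_erase, add_comm]
  have := card_filter_add_card_filter_not (s := N) (fun w => k ∈ w)
  simpa using this

theorem sum_split (k : α) (N : Finset (Finset α)) (f : Finset α → ℝ) :
    ∑ w ∈ N, f w = ∑ w ∈ N0 k N, f w + ∑ y ∈ N1 k N, f (insert k y) := by
  rw [N0, N1, sum_image inj_erase, add_comm,
    ← sum_filter_add_sum_filter_not N (fun w => k ∈ w)]
  congr 1
  refine sum_congr rfl fun x hx => ?_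
  rw [insert_erase (mem_filter.mp hx).2]

theorem prod_split (k : α) (N : Finset (Finset α)) (f : Finset α → ℝ) :
    ∏ w ∈ N, f w = (∏ w ∈ N0 k N, f w) * ∏ y ∈ N1 k N, f (insert k y) := by
  rw [N0, N1, prod_image inj_erase, mul_comm,
    ← prod_filter_mul_prod_filter_not N (fun w => k ∈ w)]
  congr 1
  refine prod_congr rfl fun x hx => ?_
  rw [insert_erase (mem_filter.mp hx).2]

theorem sum_powerset_split {V : Finset α} {k : α} (hk : k ∈ V) (f : Finset α → ℝ) :
    ∑ Z ∈ V.powerset, f Z = ∑ Z ∈ (V.erase k).powerset, (f Z + f (insert k Z)) := by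
  conv_lhs => rw [← insert_erase hk]
  rw [sum_powerset_insert (notMem_erase k V), ← sum_add_distrib]

theorem joinP_N0 {k : α} {N : Finset (Finset α)} (h : JoinP N) : JoinP (N0 k N) := by
  intro x hx y hy z hz h1 h2
  rw [mem_N0] at *
  refine ⟨h x hx.1 y hy.1 z hz.1 h1 h2, ?_⟩
  simp [hy.2, hz.2]

theorem joinP_N1 {k : α} {N : Finset (Finset α)} (h : JoinP N) : JoinP (N1 k N) := by
  intro x hx y hy z hz h1 h2
  rw [mem_N1] at *
  refine ⟨by simp [hy.1, hz.1], ?_⟩
  have := h _ hx.2 _ hy.2 _ hz.2 (insert_subset_insert k h1) (insert_subset_insert k h2)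
  rwa [← insert_union_distrib] at this

theorem decr_one {V : Finset α} {μ : Finset α → ℝ} (h : Decr V μ) {k : α} (hk : k ∈ V) :
    Decr (V.erase k) (fun Z => μ (insert k Z)) := by
  have h1 : ∀ Z ⊆ V.erase k, insert k Z ⊆ V := fun Z hZ =>
    insert_subset hk (hZ.trans (erase_subset k V))
  exact ⟨fun Z hZ => h.1 _ (h1 Z hZ),
    fun Z hZ Z' hZ' => h.2 _ (h1 Z hZ) _ (insert_subset_insert k hZ')⟩

theorem decr_bar {V : Finset α} {μ : Finset α → ℝ} (h : Decr V μ) {k : α} (hk : k ∈ V) :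
    Decr (V.erase k) (fun Z => μ Z + μ (insert k Z)) := by
  have h1 := decr_one h hk
  exact ⟨fun Z hZ => add_nonneg (h.1 _ (hZ.trans (erase_subset k V))) (h1.1 Z hZ),
    fun Z hZ Z' hZ' => add_le_add (h.2 _ (hZ.trans (erase_subset k V)) _ hZ')
      (h1.2 Z hZ Z' hZ')⟩

theorem aw_nonneg {V : Finset α} {μ : Finset α → ℝ} (h : Decr V μ) (N : Finset (Finset α))
    (w : Finset α) : 0 ≤ aw V μ N w :=
  sum_nonneg fun Z hZ => h.1 Z (mem_powerset.mp (mem_filter.mp hZ).1)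

theorem up_nonneg {V : Finset α} {μ : Finset α → ℝ} (h : Decr V μ) (F : Finset (Finset α)) :
    0 ≤ up V μ F :=
  sum_nonneg fun Z hZ => h.1 Z (mem_powerset.mp (mem_filter.mp hZ).1)

/-! ## Exits -/

/-- The exits of `N` into `H`: pairs `(w, Y)`, `w ∈ N`, `Y ∈ H`, `w ⊆ Y`, with no member of
`N ∪ H` strictly between. -/
def exits (N H : Finset (Finset α)) : Finset (Finset α × Finset α) :=
  (N ×ˢ H).filter fun e => e.1 ⊆ e.2 ∧ ∀ Z ∈ N ∪ H, e.1 ⊆ Z → Z ⊆ e.2 → Z = e.1 ∨ Z = e.2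

theorem mem_exits {N H : Finset (Finset α)} {e : Finset α × Finset α} :
    e ∈ exits N H ↔ e.1 ∈ N ∧ e.2 ∈ H ∧ e.1 ⊆ e.2 ∧
      ∀ Z, Z ∈ N ∨ Z ∈ H → e.1 ⊆ Z → Z ⊆ e.2 → Z = e.1 ∨ Z = e.2 := by
  simp only [exits, mem_filter, mem_product, mem_union, and_assoc]

/-- The law of a random subset of `V` that contains `j` with probability `p j`. -/
noncomputable def pm (V : Finset α) (p : α → ℝ) (Z : Finset α) : ℝ :=
  (∏ j ∈ Z, p j) * ∏ j ∈ V \ Z, (1 - p j)

/-- The mass of a family of sets. -/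
noncomputable def mass (μ : Finset α → ℝ) (𝒮 : Finset (Finset α)) : ℝ := ∑ Z ∈ 𝒮, μ Z

/-! ## Union-closed families -/

/-- The members `T` without `i` such that `T ∪ {i}` is not a member. -/
def Ns (A : Finset (Finset α)) (i : α) : Finset (Finset α) :=
  A.filter fun T => i ∉ T ∧ insert i T ∉ A

/-- The subsets `Y` of `G ∖ {i}` such that some member contains `i` and lies in `Y ∪ {i}`. -/
def Hs (G : Finset α) (A : Finset (Finset α)) (i : α) : Finset (Finset α) :=
  (G.erase i).powerset.filter fun Y => ∃ T ∈ A, i ∈ T ∧ T ⊆ insert i Y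

/-- The members `T` with `j ∈ T` and `T ∖ {j}` not a member. -/
def Bd (A : Finset (Finset α)) (j : α) : Finset (Finset α) :=
  A.filter fun T => j ∈ T ∧ T.erase j ∉ A

theorem mem_Ns {A : Finset (Finset α)} {i : α} {T : Finset α} :
    T ∈ Ns A i ↔ T ∈ A ∧ i ∉ T ∧ insert i T ∉ A := by
  simp [Ns]

theorem mem_Hs {G : Finset α} {A : Finset (Finset α)} {i : α} {Y : Finset α} :
    Y ∈ Hs G A i ↔ (Y ⊆ G ∧ i ∉ Y) ∧ ∃ T ∈ A, i ∈ T ∧ T ⊆ insert i Y := by
  simp [Hs, subset_erase]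

theorem mem_Bd {A : Finset (Finset α)} {j : α} {T : Finset α} :
    T ∈ Bd A j ↔ T ∈ A ∧ j ∈ T ∧ T.erase j ∉ A := by
  simp [Bd]

end Pool.Agent.H62.UC
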